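import Pool.Agent.Helper20.IIC.Stmts

/-! # BK3: three infinite clusters give a trifurcation -/

namespace IIC

open Filter Topology Set MeasureTheory
open scoped BigOperators

variable {d : ℕ}

/-! ### Connected finite sets of vertices -/

/-- `X` is a connected set of vertices. -/
def bk3_CX (X : Finset (Fin d → ℤ)) : Prop :=
  ∀ Y : Finset (Fin d → ℤ), Y ⊆ X → Y.Nonempty → Y ≠ X → ∃ y ∈ Y, ∃ z ∈ X, z ∉ Y ∧ (lat d).Adj y z

theorem bk3_CX_singleton (x : Fin d → ℤ) : bk3_CX {x} := by
  intro Y hY hne hneq
  exfalso
  rcases Finset.subset_singleton_iff.1 hY with h | h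
  · rw [h] at hne
    exact Finset.not_nonempty_empty hne
  · exact hneq h

theorem bk3_CX_insert {X : Finset (Fin d → ℤ)} (hX : bk3_CX X) {y z : Fin d → ℤ} (hy : y ∈ X)
    (hz : z ∉ X) (hadj : (lat d).Adj y z) : bk3_CX (insert z X) := by
  intro Y hY hne hneq
  by_cases hzY : z ∈ Y
  · by_cases hne2 : (Y.erase z).Nonempty
    · have h1 : Y.erase z ⊆ X := by
        intro u hu
        rcases Finset.mem_insert.1 (hY (Finset.mem_of_mem_erase hu)) with h | h
        · exact absurd h (Finset.ne_of_mem_erase hu)
        · exact h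
      have h2 : Y.erase z ≠ X := by
        intro h
        apply hneq
        rw [← h, Finset.insert_erase hzY]
      obtain ⟨y', hy', z', hz', hz'Y, hadj'⟩ := hX _ h1 hne2 h2
      refine ⟨y', Finset.mem_of_mem_erase hy', z', Finset.mem_insert_of_mem hz', ?_, hadj'⟩
      intro h
      apply hz'Y
      rw [Finset.mem_erase]
      refine ⟨?_, h⟩
      rintro rfl
      exact hz hz'
    · have h1 : Y = {z} := by
        rw [Finset.not_nonempty_iff_eq_empty] at hne2
        rw [← Finset.insert_erase hzY, hne2]
        simp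
      refine ⟨z, hzY, y, Finset.mem_insert_of_mem hy, ?_, hadj.symm⟩
      rw [h1, Finset.mem_singleton]
      rintro rfl
      exact hz hy
  · have h1 : Y ⊆ X := by
      intro u hu
      rcases Finset.mem_insert.1 (hY hu) with h | h
      · rw [h] at hu
        exact absurd hu hzY
      · exact h
    by_cases h2 : Y = X
    · exact ⟨y, by rw [h2]; exact hy, z, Finset.mem_insert_self _ _, hzY, hadj⟩
    · obtain ⟨y', hy', z', hz', hz'Y, hadj'⟩ := hX _ h1 hne h2
      exact ⟨y', hy', z', Finset.mem_insert_of_mem hz', hz'Y, hadj'⟩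

theorem bk3_remove {X : Finset (Fin d → ℤ)} (hX : bk3_CX X) {α : Fin d → ℤ} (hα : α ∈ X)
    (hcard : X ≠ {α}) : ∃ x ∈ X, x ≠ α ∧ bk3_CX (X.erase x) := by
  classical
  let Fam := X.powerset.filter fun Y => bk3_CX Y ∧ α ∈ Y ∧ Y ≠ X
  have h1 : ({α} : Finset (Fin d → ℤ)) ∈ Fam := by
    refine Finset.mem_filter.2 ⟨Finset.mem_powerset.2 (Finset.singleton_subset_iff.2 hα),
      bk3_CX_singleton α, Finset.mem_singleton_self α, ?_⟩
    exact fun h => hcard h.symm
  obtain ⟨Y, hY, hmax⟩ := Finset.exists_max_image Fam Finset.card ⟨_, h1⟩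
  obtain ⟨hYX, hYc, hαY, hYne⟩ := Finset.mem_filter.1 hY
  rw [Finset.mem_powerset] at hYX
  obtain ⟨y, hy, z, hz, hzY, hadj⟩ := hX Y hYX ⟨α, hαY⟩ hYne
  have h2 : insert z Y = X := by
    by_contra hcon
    have h3 : insert z Y ∈ Fam := by
      refine Finset.mem_filter.2 ⟨Finset.mem_powerset.2 (Finset.insert_subset hz hYX),
        bk3_CX_insert hYc hy hzY hadj, Finset.mem_insert_of_mem hαY, hcon⟩
    have h4 := hmax _ h3
    rw [Finset.card_insert_of_notMem hzY] at h4
    omega
  refine ⟨z, hz, ?_, ?_⟩
  · rintro rfl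
    exact hzY hαY
  · rw [← h2, Finset.erase_insert hzY]
    exact hYc

theorem bk3_grow {X : Finset (Fin d → ℤ)} (hX : bk3_CX X) {x y : Fin d → ℤ} (hx : x ∈ X)
    (h : LConn (fun _ : Ed d => true) x y) :
    ∃ X' : Finset (Fin d → ℤ), X ⊆ X' ∧ bk3_CX X' ∧ y ∈ X' := by
  unfold LConn Conn at h
  induction h with
  | refl => exact ⟨X, Finset.Subset.refl _, hX, hx⟩
  | @tail b c _ hstep ih =>
    obtain ⟨X', h1, h2, h3⟩ := ih
    obtain ⟨e, _, he⟩ := hstep
    by_cases hc : c ∈ X'
    · exact ⟨X', h1, h2, hc⟩
    · refine ⟨insert c X', h1.trans (Finset.subset_insert _ _), ?_, Finset.mem_insert_self _ _⟩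
      refine bk3_CX_insert h2 h3 hc ?_
      have h4 : s(b, c) ∈ (lat d).edgeSet := by
        rw [← he]
        exact e.2
      exact (SimpleGraph.mem_edgeSet _).1 h4

/-! ### Local finiteness -/

theorem bk3_nbr_finite (v : Fin d → ℤ) : {w | (lat d).Adj v w}.Finite := by
  refine (Set.finite_Icc (fun i => v i - 1) (fun i => v i + 1)).subset ?_
  intro w hw
  have hw' : ∑ i, |v i - w i| = 1 := hw
  have h1 : ∀ i, |v i - w i| ≤ 1 := by
    intro i
    rw [← hw']
    exact Finset.single_le_sum (f := fun i => |v i - w i|) (fun i _ => abs_nonneg _)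
      (Finset.mem_univ i)
  rw [Set.mem_Icc, Pi.le_def, Pi.le_def]
  constructor <;> intro i <;> have := abs_le.1 (h1 i) <;> omega

theorem bk3_edges_finite (X : Finset (Fin d → ℤ)) : {e : Ed d | ∃ v ∈ X, v ∈ le e}.Finite := by
  have h1 : {e : Ed d | ∃ v ∈ X, v ∈ le e} = ⋃ v ∈ X, {e : Ed d | v ∈ le e} := by
    ext e
    simp
  rw [h1]
  refine Set.Finite.biUnion X.finite_toSet fun v _ => ?_
  have h2 : ((fun w => s(v, w)) '' {w | (lat d).Adj v w}).Finite := (bk3_nbr_finite v).image _
  refine Set.Finite.subset (h2.preimage (Subtype.val_injective.injOn) : (Subtype.val ⁻¹'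
    ((fun w => s(v, w)) '' {w | (lat d).Adj v w}) : Set (Ed d)).Finite) ?_
  intro e he
  have he' : v ∈ e.1 := he
  obtain ⟨w, hw⟩ := he'
  refine ⟨w, ?_, hw.symm⟩
  have h3 : s(v, w) ∈ (lat d).edgeSet := by
    rw [← hw]
    exact e.2
  exact (SimpleGraph.mem_edgeSet _).1 h3

/-! ### Connections -/

theorem bk3_symm {ω : Cfg d} {x y : Fin d → ℤ} (h : LConn ω x y) : LConn ω y x := by
  unfold LConn Conn at *
  induction h with
  | refl => exact Relation.ReflTransGen.refl
  | tail _ hstep ih =>
    obtain ⟨e, he, he'⟩ := hstep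
    exact Relation.ReflTransGen.head ⟨e, he, by rw [he', Sym2.eq_swap]⟩ ih

theorem bk3_mono {ω ω' : Cfg d} (h : ∀ e, ω e = true → ω' e = true) {x y : Fin d → ℤ}
    (hc : LConn ω x y) : LConn ω' x y := by
  unfold LConn Conn at *
  induction hc with
  | refl => exact Relation.ReflTransGen.refl
  | tail _ hstep ih =>
    obtain ⟨e, he, he'⟩ := hstep
    exact Relation.ReflTransGen.tail ih ⟨e, h e he, he'⟩

/-- a set closed under open steps contains the clusters of its points -/
theorem bk3_closed {ω : Cfg d} {D : Set (Fin d → ℤ)}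
    (h : ∀ (e : Ed d) (x y : Fin d → ℤ), ω e = true → le e = s(x, y) → x ∈ D → y ∈ D)
    {x y : Fin d → ℤ} (hx : x ∈ D) (hc : LConn ω x y) : y ∈ D := by
  unfold LConn Conn at hc
  induction hc with
  | refl => exact hx
  | tail _ hstep ih =>
    obtain ⟨e, he, he'⟩ := hstep
    exact h e _ _ he he' ih

/-- The edge between two adjacent points. -/
def bk3_edge {x y : Fin d → ℤ} (h : (lat d).Adj x y) : Ed d := ⟨s(x, y), h⟩

theorem bk3_base (x : Fin d → ℤ) (ξ : Cfg d) (a : Fin 3 → (Fin d → ℤ))
    (hcl : ∀ e : Ed d, x ∈ le e → ξ e = false) (hadj : ∀ i, (lat d).Adj x (a i))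
    (hinf : ∀ i, Infin ξ (a i)) (hdis : ∀ i j, i ≠ j → ¬ LConn ξ (a i) (a j)) :
    ∃ ω' : Cfg d, {e | ξ e ≠ ω' e}.Finite ∧ Tri x ω' := by
  classical
  let ω' : Cfg d := fun e => if ∃ i, e = bk3_edge (hadj i) then true else ξ e
  refine ⟨ω', ?_, ?_⟩
  · refine (Set.finite_range fun i => bk3_edge (hadj i)).subset ?_
    intro e he
    by_contra hcon
    apply he
    have : ¬ ∃ i, e = bk3_edge (hadj i) := by
      rintro ⟨i, hi⟩
      exact hcon ⟨i, hi.symm⟩
    show ξ e = if ∃ i, e = bk3_edge (hadj i) then true else ξ e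
    rw [if_neg this]
  · have hclo : clo x ω' = ξ := by
      funext e
      unfold clo
      by_cases he : x ∈ le e
      · rw [if_pos he, hcl e he]
      · rw [if_neg he]
        have : ¬ ∃ i, e = bk3_edge (hadj i) := by
          rintro ⟨i, hi⟩
          apply he
          rw [hi]
          exact Sym2.mem_mk_left _ _
        show (if ∃ i, e = bk3_edge (hadj i) then true else ξ e) = ξ e
        rw [if_neg this]
    refine ⟨a, ?_, ?_, ?_⟩
    · intro i
      refine ⟨bk3_edge (hadj i), ?_, rfl⟩
      exact if_pos ⟨i, rfl⟩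
    · intro i
      rw [hclo]
      exact hinf i
    · intro i j hij
      rw [hclo]
      exact hdis i j hij

theorem bk3_ind (N : ℕ) : ∀ (X : Finset (Fin d → ℤ)), X.card = N → X.Nonempty → bk3_CX X →
    ∀ (ξ : Cfg d) (a α : Fin 3 → (Fin d → ℤ)), (∀ e : Ed d, (∃ v ∈ X, v ∈ le e) → ξ e = false) →
    (∀ i, a i ∉ X) → (∀ i, α i ∈ X) → (∀ i, (lat d).Adj (α i) (a i)) → (∀ i, Infin ξ (a i)) →
    (∀ i j, i ≠ j → ¬ LConn ξ (a i) (a j)) →
    ∃ (v : Fin d → ℤ) (ω' : Cfg d), {e | ξ e ≠ ω' e}.Finite ∧ Tri v ω' := by
  classical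
  induction N with
  | zero =>
    intro X hc hne
    rw [Finset.card_eq_zero] at hc
    rw [hc] at hne
    exact absurd hne Finset.not_nonempty_empty
  | succ N ih =>
    intro X hcard hne hX ξ a α hcl haX hαX hadj hinf hdis
    by_cases hsing : ∃ x, X = {x}
    · obtain ⟨x, rfl⟩ := hsing
      have hα : ∀ i, α i = x := fun i => Finset.mem_singleton.1 (hαX i)
      obtain ⟨ω', h1, h2⟩ := bk3_base x ξ a
        (fun e he => hcl e ⟨x, Finset.mem_singleton_self x, he⟩)
        (fun i => by rw [← hα i]; exact hadj i) hinf hdis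
      exact ⟨x, ω', h1, h2⟩
    · -- a removable vertex which is used at most once
      have hns : ∀ x, X ≠ {x} := fun x h => hsing ⟨x, h⟩
      have hex : ∃ x ∈ X, bk3_CX (X.erase x) ∧ ∀ i j, α i = x → α j = x → i = j := by
        obtain ⟨x, hx, hxα, hxc⟩ := bk3_remove hX (hαX 0) (hns _)
        by_cases hbad : α 1 = x ∧ α 2 = x
        · obtain ⟨x', hx', hxα', hxc'⟩ := bk3_remove hX (hαX 1) (hns _)
          refine ⟨x', hx', hxc', ?_⟩
          have h0 : ∀ i, α i = x' → i = 0 := by
            intro i hi
            fin_cases i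
            · rfl
            · exact absurd hi.symm hxα'
            · exact absurd (hi.symm.trans (hbad.2.trans hbad.1.symm)) hxα'
          intro i j hi hj
          rw [h0 i hi, h0 j hj]
        · refine ⟨x, hx, hxc, ?_⟩
          intro i j hi hj
          fin_cases i <;> fin_cases j
          · rfl
          · exact absurd hi.symm hxα
          · exact absurd hi.symm hxα
          · exact absurd hj.symm hxα
          · rfl
          · exact absurd ⟨hi, hj⟩ hbad
          · exact absurd hj.symm hxα
          · exact absurd ⟨hj, hi⟩ hbad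
          · rfl
      obtain ⟨x, hx, hxc, huniq⟩ := hex
      have hcard' : (X.erase x).card = N := by
        rw [Finset.card_erase_of_mem hx, hcard]
        rfl
      have hne' : (X.erase x).Nonempty := by
        rw [Finset.nonempty_iff_ne_empty]
        intro h
        apply hns x
        rw [← Finset.insert_erase hx, h]
        simp
      have hclX' : ∀ e : Ed d, (∃ v ∈ X.erase x, v ∈ le e) → ξ e = false := by
        rintro e ⟨v, hv, hve⟩
        exact hcl e ⟨v, Finset.mem_of_mem_erase hv, hve⟩
      by_cases huse : ∃ i₀, α i₀ = x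
      · obtain ⟨i₀, hi₀⟩ := huse
        have hαne : ∀ i, i ≠ i₀ → α i ≠ x := by
          intro i hi h
          exact hi (huniq i i₀ h hi₀)
        have hxa : (lat d).Adj x (a i₀) := by
          rw [← hi₀]
          exact hadj i₀
        -- a neighbour of x in X
        obtain ⟨y, hy, z, hz, hzY, hyz⟩ := hX {x} (Finset.singleton_subset_iff.2 hx)
          ⟨x, Finset.mem_singleton_self x⟩ (fun h => hns x h.symm)
        rw [Finset.mem_singleton] at hy hzY
        subst hy
        let ξ' : Cfg d := fun e => if e = bk3_edge hxa then true else ξ e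
        have hle : ∀ e, ξ e = true → ξ' e = true := by
          intro e he
          show (if e = bk3_edge hxa then true else ξ e) = true
          split_ifs
          · rfl
          · exact he
        have hξ' : ∀ e, ξ' e = true → e = bk3_edge hxa ∨ ξ e = true := by
          intro e he
          by_cases h : e = bk3_edge hxa
          · exact Or.inl h
          · right
            have h2 : ξ' e = ξ e := if_neg h
            rw [← h2]
            exact he
        let a' : Fin 3 → (Fin d → ℤ) := Function.update a i₀ y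
        let α' : Fin 3 → (Fin d → ℤ) := Function.update α i₀ z
        have ha'0 : a' i₀ = y := Function.update_self _ _ _
        have ha'i : ∀ i, i ≠ i₀ → a' i = a i := fun i hi => Function.update_of_ne hi _ _
        have hα'0 : α' i₀ = z := Function.update_self _ _ _
        have hα'i : ∀ i, i ≠ i₀ → α' i = α i := fun i hi => Function.update_of_ne hi _ _
        -- clusters of the other points do not change
        have hcluster : ∀ j, j ≠ i₀ → ∀ u, LConn ξ' (a j) u → LConn ξ (a j) u ∧ u ≠ y ∧
            u ≠ a i₀ := by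
          intro j hj u hu
          have hxnot : ¬ LConn ξ (a j) y := by
            intro h
            have h3 : a j ∈ ({y} : Set (Fin d → ℤ)) := by
              refine bk3_closed (ω := ξ) ?_ (Set.mem_singleton y) (bk3_symm h)
              intro e p q he hpq hp
              rw [Set.mem_singleton_iff] at hp
              have h4 : ξ e = false := hcl e ⟨y, hx, by rw [hpq, hp]; exact Sym2.mem_mk_left _ _⟩
              rw [he] at h4
              exact absurd h4 (by simp)
            rw [Set.mem_singleton_iff] at h3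
            apply haX j
            rw [h3]
            exact hx
          have h1 : u ∈ {u | LConn ξ (a j) u} := by
            refine bk3_closed (ω := ξ') ?_ ?_ hu
            · intro e p q he hpq hp
              rw [Set.mem_ofPred_eq] at hp ⊢
              rcases hξ' e he with h | h
              · exfalso
                have h5 : p ∈ le e := by rw [hpq]; exact Sym2.mem_mk_left _ _
                rw [h] at h5
                rcases Sym2.mem_iff.1 h5 with h6 | h6
                · rw [h6] at hp
                  exact hxnot hp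
                · rw [h6] at hp
                  exact hdis j i₀ hj hp
              · exact Relation.ReflTransGen.tail hp ⟨e, h, hpq⟩
            · rw [Set.mem_ofPred_eq]
              exact Relation.ReflTransGen.refl
          rw [Set.mem_ofPred_eq] at h1
          refine ⟨h1, ?_, ?_⟩
          · rintro rfl
            exact hxnot h1
          · rintro rfl
            exact hdis j i₀ hj h1
        obtain ⟨v, ω', hfin, htri⟩ := ih (X.erase y) hcard' hne' hxc ξ' a' α' (by
            rintro e ⟨v, hv, hve⟩
            have h1 : e ≠ bk3_edge hxa := by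
              rintro rfl
              rcases Sym2.mem_iff.1 hve with h6 | h6
              · rw [h6] at hv
                exact Finset.notMem_erase _ _ hv
              · rw [h6] at hv
                exact haX i₀ (Finset.mem_of_mem_erase hv)
            have h2 : ξ' e = ξ e := if_neg h1
            rw [h2]
            exact hclX' e ⟨v, hv, hve⟩) (by
            intro i
            by_cases hi : i = i₀
            · rw [hi, ha'0]
              exact Finset.notMem_erase _ _
            · rw [ha'i i hi]
              exact fun h => haX i (Finset.mem_of_mem_erase h)) (by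
            intro i
            by_cases hi : i = i₀
            · rw [hi, hα'0]
              exact Finset.mem_erase.2 ⟨hzY, hz⟩
            · rw [hα'i i hi]
              exact Finset.mem_erase.2 ⟨hαne i hi, hαX i⟩) (by
            intro i
            by_cases hi : i = i₀
            · rw [hi, hα'0, ha'0]
              exact hyz.symm
            · rw [hα'i i hi, ha'i i hi]
              exact hadj i) (by
            intro i
            by_cases hi : i = i₀
            · rw [hi, ha'0]
              refine (hinf i₀).mono ?_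
              intro u hu
              rw [Set.mem_ofPred_eq] at hu ⊢
              refine Relation.ReflTransGen.head ⟨bk3_edge hxa, if_pos rfl, rfl⟩ ?_
              exact bk3_mono hle hu
            · rw [ha'i i hi]
              refine (hinf i).mono ?_
              intro u hu
              exact bk3_mono hle hu) (by
            intro i j hij hc
            by_cases hi : i = i₀
            · have hj : j ≠ i₀ := by
                rintro rfl
                exact hij hi
              rw [hi, ha'0, ha'i j hj] at hc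
              exact (hcluster j hj _ (bk3_symm hc)).2.1 rfl
            · by_cases hj : j = i₀
              · rw [hj, ha'0, ha'i i hi] at hc
                exact (hcluster i hi _ hc).2.1 rfl
              · rw [ha'i i hi, ha'i j hj] at hc
                exact hdis i j hij (hcluster i hi _ hc).1)
        refine ⟨v, ω', ?_, htri⟩
        refine (hfin.union (Set.finite_singleton (bk3_edge hxa))).subset ?_
        intro e he
        by_cases h : e = bk3_edge hxa
        · exact Or.inr h
        · left
          rw [Set.mem_ofPred_eq] at he ⊢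
          have h2 : ξ' e = ξ e := if_neg h
          rw [h2]
          exact he
      · have hαne : ∀ i, α i ≠ x := fun i h => huse ⟨i, h⟩
        exact ih (X.erase x) hcard' hne' hxc ξ a α hclX'
          (fun i h => haX i (Finset.mem_of_mem_erase h))
          (fun i => Finset.mem_erase.2 ⟨hαne i, hαX i⟩) hadj hinf hdis

/-! ### From three infinite clusters to the situation of the induction -/

theorem bk3_hit {ω ξ : Cfg d} {X : Finset (Fin d → ℤ)}
    (hξ : ∀ e : Ed d, (¬ ∃ v ∈ X, v ∈ le e) → ω e = true → ξ e = true) {y z : Fin d → ℤ}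
    (hc : LConn ω y z) (hz : z ∈ X) (hy : y ∉ X) :
    ∃ a α : Fin d → ℤ, a ∉ X ∧ α ∈ X ∧ (lat d).Adj α a ∧ LConn ξ y a := by
  unfold LConn Conn at hc
  induction hc using Relation.ReflTransGen.head_induction_on with
  | refl => exact absurd hz hy
  | @head b c hstep _ ih =>
    obtain ⟨e, he, he'⟩ := hstep
    have hadj : (lat d).Adj b c := by
      have h4 : s(b, c) ∈ (lat d).edgeSet := by
        rw [← he']
        exact e.2
      exact (SimpleGraph.mem_edgeSet _).1 h4
    by_cases hcX : c ∈ X
    · exact ⟨b, c, hy, hcX, hadj.symm, Relation.ReflTransGen.refl⟩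
    · obtain ⟨a, α, h1, h2, h3, h4⟩ := ih hcX
      refine ⟨a, α, h1, h2, h3, Relation.ReflTransGen.head ⟨e, ?_, he'⟩ h4⟩
      refine hξ e ?_ he
      rintro ⟨v, hv, hve⟩
      rw [he'] at hve
      rcases Sym2.mem_iff.1 hve with h | h
      · rw [h] at hv
        exact hy hv
      · rw [h] at hv
        exact hcX hv

theorem bk3_det (hcon : ∀ x y : Fin d → ℤ, LConn (fun _ : Ed d => true) x y) (ω : Cfg d)
    (h : Three ω) : ∃ (v : Fin d → ℤ) (ω' : Cfg d), {e | ω e ≠ ω' e}.Finite ∧ Tri v ω' := by
  classical
  obtain ⟨a0, hinf, hdis⟩ := h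
  obtain ⟨X1, h11, h12, h13⟩ := bk3_grow (bk3_CX_singleton (a0 0)) (Finset.mem_singleton_self _)
    (hcon (a0 0) (a0 1))
  obtain ⟨X, h21, hXc, h23⟩ := bk3_grow h12 (h11 (Finset.mem_singleton_self _))
    (hcon (a0 0) (a0 2))
  have ha0 : ∀ i, a0 i ∈ X := by
    intro i
    fin_cases i
    · exact h21 (h11 (Finset.mem_singleton_self _))
    · exact h21 h13
    · exact h23
  let ξ : Cfg d := fun e => if ∃ v ∈ X, v ∈ le e then false else ω e
  have hξcl : ∀ e : Ed d, (∃ v ∈ X, v ∈ le e) → ξ e = false := fun e he => if_pos he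
  have hξop : ∀ e : Ed d, (¬ ∃ v ∈ X, v ∈ le e) → ξ e = ω e := fun e he => if_neg he
  have hξω : ∀ e, ξ e = true → ω e = true := by
    intro e he
    by_cases h : ∃ v ∈ X, v ∈ le e
    · rw [hξcl e h] at he
      exact absurd he (by simp)
    · rw [hξop e h] at he
      exact he
  have key : ∀ i, ∃ a α : Fin d → ℤ, a ∉ X ∧ α ∈ X ∧ (lat d).Adj α a ∧ Infin ξ a ∧
      LConn ω (a0 i) a := by
    intro i
    by_contra hno
    have hNfin : (⋃ α ∈ X, {a | (lat d).Adj α a}).Finite :=
      Set.Finite.biUnion X.finite_toSet fun α _ => bk3_nbr_finite α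
    let Nn : Set (Fin d → ℤ) := {a | (∃ α ∈ X, (lat d).Adj α a) ∧ a ∉ X ∧ LConn ω (a0 i) a}
    have hNn : Nn.Finite := by
      refine hNfin.subset ?_
      rintro a ⟨⟨α, hα, hadj⟩, _⟩
      exact Set.mem_biUnion hα hadj
    have hfin : (⋃ a ∈ Nn, {u | LConn ξ a u}).Finite := by
      refine Set.Finite.biUnion hNn ?_
      rintro a ⟨⟨α, hα, hadj⟩, haX, hac⟩
      by_contra hcon2
      exact hno ⟨a, α, haX, hα, hadj, hcon2, hac⟩
    apply hinf i
    refine (hfin.union X.finite_toSet).subset ?_
    intro u hu
    rw [Set.mem_ofPred_eq] at hu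
    by_cases huX : u ∈ X
    · exact Or.inr huX
    · left
      obtain ⟨a, α, h1, h2, h3, h4⟩ := bk3_hit (ξ := ξ) (fun e he h5 => by rw [hξop e he]; exact h5)
        (bk3_symm hu) (ha0 i) huX
      refine Set.mem_biUnion (x := a) ?_ (bk3_symm h4)
      exact ⟨⟨α, h2, h3⟩, h1, Relation.ReflTransGen.trans hu (bk3_mono hξω h4)⟩
  choose a α h1 h2 h3 h4 h5 using key
  obtain ⟨v, ω', hfin, htri⟩ := bk3_ind X.card X rfl ⟨_, ha0 0⟩ hXc ξ a α hξcl h1 h2 h3 h4 (by
    intro i j hij hc
    apply hdis i j hij
    refine Relation.ReflTransGen.trans (h5 i) ?_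
    refine Relation.ReflTransGen.trans (bk3_mono hξω hc) ?_
    exact bk3_symm (h5 j))
  refine ⟨v, ω', ?_, htri⟩
  refine (hfin.union (bk3_edges_finite X)).subset ?_
  intro e he
  by_cases h : ∃ v ∈ X, v ∈ le e
  · exact Or.inr h
  · left
    rw [Set.mem_ofPred_eq] at he ⊢
    rw [hξop e h]
    exact he

/-! ### The module -/

theorem st_BK3 (hFE : ST_FE) (hMEAS : ST_MEAS) (hLATC : ST_LATC) : ST_BK3 := by
  classical
  intro d hd β hβ μ hμ hthree
  have hprob : IsProbabilityMeasure μ := hμ.1
  by_contra hno
  apply hthree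
  have hcover : {ω : Cfg d | Three ω} ⊆
      ⋃ p : (Fin d → ℤ) × Finset (Ed d) × Finset (Ed d), {ω | Tri p.1 (ext ω p.2.1 p.2.2)} := by
    intro ω hω
    obtain ⟨v, ω', hfin, htri⟩ := bk3_det (hLATC d hd).1 ω hω
    refine Set.mem_iUnion.2 ⟨(v, hfin.toFinset, hfin.toFinset.filter fun e => ω' e = true), ?_⟩
    rw [Set.mem_ofPred_eq]
    have h1 : ext ω hfin.toFinset (hfin.toFinset.filter fun e => ω' e = true) = ω' := by
      funext e
      unfold ext
      by_cases he : e ∈ hfin.toFinset
      · rw [if_pos he]
        by_cases h : ω' e = true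
        · rw [h]
          simp [he, h]
        · rw [Bool.not_eq_true] at h
          rw [h]
          simp [h]
      · rw [if_neg he]
        by_contra hne
        exact he ((Set.Finite.mem_toFinset _).2 hne)
    dsimp only
    rw [h1]
    exact htri
  have hcount : Countable (Ed d) := by
    have h1 : Countable (Sym2 (Fin d → ℤ)) := by
      unfold Sym2
      infer_instance
    infer_instance
  refine measure_mono_null hcover (measure_iUnion_null ?_)
  rintro ⟨v, B, T⟩
  by_contra hpos
  apply hno
  refine ⟨v, ?_⟩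
  obtain ⟨c, hc, hcA⟩ := hFE d β hβ μ hμ B
  have hmeas : MeasurableSet {ω : Cfg d | Tri v (ext ω B T)} := by
    have h1 : Measurable fun ω : Cfg d => ext ω B T := by
      rw [measurable_pi_iff]
      intro e
      unfold ext
      by_cases he : e ∈ B
      · simp only [if_pos he]
        exact measurable_const
      · simp only [if_neg he]
        exact measurable_pi_apply e
    exact h1 ((hMEAS d).2.2.2.1 v)
  have hind : ∀ ω ω' : Cfg d, (∀ e ∉ B, ω e = ω' e) →
      (ω ∈ {ω : Cfg d | Tri v (ext ω B T)} ↔ ω' ∈ {ω : Cfg d | Tri v (ext ω B T)}) := by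
    intro ω ω' h
    have h1 : ext ω B T = ext ω' B T := by
      funext e
      unfold ext
      by_cases he : e ∈ B
      · rw [if_pos he, if_pos he]
      · rw [if_neg he, if_neg he, h e he]
    rw [Set.mem_ofPred_eq, Set.mem_ofPred_eq, h1]
  have h1 := hcA _ hmeas hind (fun e => decide (e ∈ T))
  have h2 : {ω : Cfg d | Tri v (ext ω B T)} ∩ {ω | ∀ e ∈ B, ω e = decide (e ∈ T)} ⊆
      {ω | Tri v ω} := by
    rintro ω ⟨hω1, hω2⟩
    have h3 : ext ω B T = ω := by
      funext e
      unfold ext
      by_cases he : e ∈ B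
      · rw [if_pos he]
        rw [Set.mem_ofPred_eq] at hω2
        rw [hω2 e he]
      · rw [if_neg he]
    rw [Set.mem_ofPred_eq, h3] at hω1
    exact hω1
  have h3 : 0 < μ.real {ω : Cfg d | Tri v (ext ω B T)} := by
    rw [measureReal_def]
    exact ENNReal.toReal_pos hpos (measure_ne_top _ _)
  have h4 : 0 < μ.real {ω : Cfg d | Tri v ω} := by
    refine lt_of_lt_of_le (mul_pos hc h3) (h1.trans (measureReal_mono h2))
  intro h5
  rw [measureReal_def, h5] at h4
  simp at h4

end IIC
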