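import Pool.Agent.Helper20.IIC.Stmts

/-! # CS0: the case without infinite cluster at `βc` -/

namespace IIC

open Filter Topology Set MeasureTheory
open scoped BigOperators

/-- Signed permutations of the coordinates. -/
def cs0_sg {d : ℕ} (g : Equiv.Perm (Fin d) × (Fin d → ℤˣ)) : (Fin d → ℤ) ≃ (Fin d → ℤ) where
  toFun x := fun i => (g.2 i : ℤ) * x (g.1 i)
  invFun y := fun i => (g.2 (g.1.symm i) : ℤ) * y (g.1.symm i)
  left_inv x := by
    funext i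
    have h : ((g.2 (g.1.symm i) : ℤˣ) : ℤ) * ((g.2 (g.1.symm i) : ℤˣ) : ℤ) = 1 := by
      rw [← Units.val_mul, Int.units_mul_self, Units.val_one]
    simp only [Equiv.apply_symm_apply]
    rw [← mul_assoc, h, one_mul]
  right_inv y := by
    funext i
    have h : ((g.2 i : ℤˣ) : ℤ) * ((g.2 i : ℤˣ) : ℤ) = 1 := by
      rw [← Units.val_mul, Int.units_mul_self, Units.val_one]
    simp only [Equiv.symm_apply_apply]
    rw [← mul_assoc, h, one_mul]

theorem cs0_sg_apply {d : ℕ} (g : Equiv.Perm (Fin d) × (Fin d → ℤˣ)) (x : Fin d → ℤ) (i : Fin d) :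
    cs0_sg g x i = (g.2 i : ℤ) * x (g.1 i) := rfl

theorem cs0_sg_sub {d : ℕ} (g : Equiv.Perm (Fin d) × (Fin d → ℤˣ)) (x y : Fin d → ℤ) :
    cs0_sg g (x - y) = cs0_sg g x - cs0_sg g y := by
  funext i
  rw [Pi.sub_apply, cs0_sg_apply, cs0_sg_apply, cs0_sg_apply, Pi.sub_apply, mul_sub]

theorem cs0_flips {d : ℕ} {S : (Fin d → ℤ) → ℝ} (hS : TwoAPI d S) (s : Fin d → ℤˣ)
    (x : Fin d → ℤ) (t : Finset (Fin d)) :
    S (fun i => if i ∈ t then (s i : ℤ) * x i else x i) = S x := by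
  classical
  induction t using Finset.induction_on with
  | empty => simp
  | insert j t hj ih =>
    rw [← ih]
    rcases Int.units_eq_one_or (s j) with h | h
    · congr 1
      funext i
      by_cases hij : i = j
      · subst hij
        simp [hj, h]
      · simp [hij]
    · rw [← hS.flip j (fun i => if i ∈ t then (s i : ℤ) * x i else x i)]
      congr 1
      funext i
      by_cases hij : i = j
      · subst hij
        simp [hj, h]
      · simp [hij]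

theorem cs0_inv {d : ℕ} {S : (Fin d → ℤ) → ℝ} (hS : TwoAPI d S)
    (g : Equiv.Perm (Fin d) × (Fin d → ℤˣ)) (x : Fin d → ℤ) : S (cs0_sg g x) = S x := by
  have h := cs0_flips hS g.2 (fun i => x (g.1 i)) Finset.univ
  rw [← hS.perm g.1 x, ← h]
  congr 1
  funext i
  simp [cs0_sg_apply]

theorem cs0_nrm {d : ℕ} (g : Equiv.Perm (Fin d) × (Fin d → ℤˣ)) (x : Fin d → ℤ) :
    nrm (cs0_sg g x) = nrm x := by
  have h : ∀ i, (cs0_sg g x i).natAbs = (x (g.1 i)).natAbs := by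
    intro i
    rw [cs0_sg_apply, Int.natAbs_mul]
    rcases Int.units_eq_one_or (g.2 i) with h | h <;> simp [h]
  unfold nrm
  apply le_antisymm
  · refine Finset.sup_le fun i _ => ?_
    rw [h i]
    exact Finset.le_sup (f := fun i => (x i).natAbs) (Finset.mem_univ (g.1 i))
  · refine Finset.sup_le fun i _ => ?_
    have h2 := h (g.1.symm i)
    rw [Equiv.apply_symm_apply] at h2
    rw [← h2]
    exact Finset.le_sup (f := fun i => (cs0_sg g x i).natAbs) (Finset.mem_univ (g.1.symm i))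

theorem cs0_sector {d : ℕ} (i₀ : Fin d) (x : Fin d → ℤ) :
    ∃ (g : Equiv.Perm (Fin d) × (Fin d → ℤˣ)) (x0 : Fin d → ℤ),
      cs0_sg g x0 = x ∧ x0 i₀ = (nrm x : ℤ) ∧ ∀ j, 0 ≤ x0 j := by
  obtain ⟨i₁, _, hi₁⟩ := Finset.exists_mem_eq_sup (Finset.univ : Finset (Fin d))
    ⟨i₀, Finset.mem_univ _⟩ (fun i => (x i).natAbs)
  refine ⟨(Equiv.swap i₀ i₁, fun i => if x i < 0 then -1 else 1),
    fun i => ((x (Equiv.swap i₀ i₁ i)).natAbs : ℤ), ?_, ?_, ?_⟩
  · funext i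
    rw [cs0_sg_apply]
    dsimp only
    rw [Equiv.swap_apply_self]
    by_cases h : x i < 0
    · rw [if_pos h]
      have : ((x i).natAbs : ℤ) = -(x i) := by omega
      rw [this]
      simp
    · rw [if_neg h]
      have : ((x i).natAbs : ℤ) = x i := by omega
      rw [this]
      simp
  · dsimp only
    rw [Equiv.swap_apply_left]
    unfold nrm
    rw [hi₁]
  · intro j
    exact Int.natCast_nonneg _

theorem cs0_far {d : ℕ} {f : (Fin d → ℤ) → ℝ} (hf : Tendsto f cofinite (𝓝 0)) {δ : ℝ}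
    (hδ : 0 < δ) : ∃ R : ℕ, ∀ v, R ≤ nrm v → f v ≤ δ := by
  have h : ∀ᶠ v in cofinite, f v < δ := hf.eventually (gt_mem_nhds hδ)
  rw [eventually_cofinite] at h
  refine ⟨h.toFinset.sup nrm + 1, fun v hv => ?_⟩
  by_contra hcon
  have h2 : v ∈ h.toFinset := by
    rw [Set.Finite.mem_toFinset, Set.mem_ofPred_eq]
    intro h3
    exact hcon h3.le
  have := Finset.le_sup (f := nrm) h2
  omega

theorem cs0_isCyl {d : ℕ} (F : Finset (Ed d)) : IsCyl (EF F) :=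
  ⟨F, fun _ _ h => ⟨fun h1 e he => (h e he) ▸ h1 e he, fun h1 e he => (h e he).symm ▸ h1 e he⟩⟩

theorem st_CS0 (hX : ST_CMPX) (hI : ST_CMPI) (hWEX : ST_WEX) (hWA : ST_WA) (hTWO : ST_TWO)
    (hLIM : ST_LIM) (hDEC : ST_DEC) (hSIM : ST_SIMN) (hUPS : ST_UPS) : ST_CS0 := by
  intro d hd βc hβc hth hth0 F ε hε
  have hβc0 : 0 ≤ βc := hβc.le
  obtain ⟨hAPI, _, _, hpos', _⟩ := hTWO d hd βc hβc0
  have hpos : ∀ x : Fin d → ℤ, 0 < S2 βc x := hpos' hβc
  have hcont : ∀ x : Fin d → ℤ, Tendsto (fun b => S2 b x) (𝓝[>] βc) (𝓝 (S2 βc x)) := by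
    intro x
    exact ((hLIM d βc hβc0).1 (CN 0 x) (hUPS d 0 x ∅).1).2.1
  have hcontA : ∀ x : Fin d → ℤ, Tendsto (fun b => lW b (EF F ∩ CN 0 x)) (𝓝[>] βc)
      (𝓝 (lW βc (EF F ∩ CN 0 x))) := by
    intro x
    exact ((hLIM d βc hβc0).2 (EF F) (CN 0 x) (cs0_isCyl F) (hUPS d 0 x ∅).1).2
  have hdec : Tendsto (fun x : Fin d → ℤ => S2 βc x) cofinite (𝓝 0) := hDEC d hd βc hβc0 hth0
  have hsph : ∀ n : ℕ, 1 ≤ n → 1 ≤ ∑ y ∈ sph d n, S2 βc y := by
    intro n hn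
    have h1 : Tendsto (fun b => ∑ y ∈ sph d n, S2 b y) (𝓝[>] βc) (𝓝 (∑ y ∈ sph d n, S2 βc y)) :=
      tendsto_finsetSum _ fun y _ => hcont y
    refine ge_of_tendsto h1 ?_
    filter_upwards [self_mem_nhdsWithin] with b hb
    have hb' : βc < b := hb
    exact hSIM d hd b (hβc0.trans hb'.le) (hth b hb') n hn
  let i₀ : Fin d := ⟨0, by omega⟩
  obtain ⟨_, _, _, _, hWA5, hWA6⟩ := hWA d hd i₀ (S2 βc) hAPI
  -- constants
  set δ : ℝ := ε / 16 with hδdef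
  have hδ : 0 < δ := by positivity
  -- far points
  have hfar : Tendsto (fun v : Fin d → ℤ => ∑ z ∈ vts F, S2 βc (v - z) / S2 βc z) cofinite
      (𝓝 0) := by
    have h1 : Tendsto (fun v : Fin d → ℤ => ∑ z ∈ vts F, S2 βc (v - z) / S2 βc z) cofinite
        (𝓝 (∑ z ∈ vts F, 0 / S2 βc z)) := by
      refine tendsto_finsetSum _ fun z _ => ?_
      refine Tendsto.div_const ?_ _
      exact hdec.comp (Function.Injective.tendsto_cofinite (sub_left_injective))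
    simpa using h1
  obtain ⟨R₁, hR₁⟩ := cs0_far hfar hδ
  obtain ⟨W, w, hw0, hw1, hWR, hQ⟩ := hWEX d hd i₀ (S2 βc) hAPI hpos hdec hsph (δ ^ 2)
    (by positivity) R₁
  -- functions of β
  have hM : ∀ g : Equiv.Perm (Fin d) × (Fin d → ℤˣ),
      Tendsto (fun b => ∑ u ∈ W, w u * (lW b (EF F ∩ CN 0 (cs0_sg g u)) / S2 b (cs0_sg g u)))
        (𝓝[>] βc)
        (𝓝 (∑ u ∈ W, w u * (lW βc (EF F ∩ CN 0 (cs0_sg g u)) / S2 βc (cs0_sg g u)))) := by
    intro g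
    refine tendsto_finsetSum _ fun u _ => ?_
    exact Tendsto.const_mul _ ((hcontA _).div (hcont _) (hpos _).ne')
  have hQg : ∀ g : Equiv.Perm (Fin d) × (Fin d → ℤˣ),
      Tendsto (fun b => ∑ u ∈ W, ∑ v ∈ W, w u * w v * (S2 b (cs0_sg g u - cs0_sg g v) *
        (1 / S2 b (cs0_sg g u) + 1 / S2 b (cs0_sg g v)))) (𝓝[>] βc)
        (𝓝 (∑ u ∈ W, ∑ v ∈ W, w u * w v * (S2 βc (cs0_sg g u - cs0_sg g v) *
        (1 / S2 βc (cs0_sg g u) + 1 / S2 βc (cs0_sg g v))))) := by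
    intro g
    refine tendsto_finsetSum _ fun u _ => tendsto_finsetSum _ fun v _ => ?_
    refine Tendsto.const_mul _ (Tendsto.mul (hcont _) ?_)
    exact (Tendsto.div tendsto_const_nhds (hcont _) (hpos _).ne').add
      (Tendsto.div tendsto_const_nhds (hcont _) (hpos _).ne')
  have hQval : ∀ g : Equiv.Perm (Fin d) × (Fin d → ℤˣ),
      ∑ u ∈ W, ∑ v ∈ W, w u * w v * (S2 βc (cs0_sg g u - cs0_sg g v) *
        (1 / S2 βc (cs0_sg g u) + 1 / S2 βc (cs0_sg g v))) ≤ 1 + δ ^ 2 := by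
    intro g
    refine le_trans (le_of_eq ?_) hQ
    refine Finset.sum_congr rfl fun u _ => Finset.sum_congr rfl fun v _ => ?_
    rw [← cs0_sg_sub, cs0_inv hAPI, cs0_inv hAPI, cs0_inv hAPI]
  have hD : ∀ g : Equiv.Perm (Fin d) × (Fin d → ℤˣ), ∀ u : Fin d → ℤ,
      Tendsto (fun b => ∑ z ∈ vts F, S2 b (cs0_sg g u - z)) (𝓝[>] βc)
        (𝓝 (∑ z ∈ vts F, S2 βc (cs0_sg g u - z))) := by
    intro g u
    exact tendsto_finsetSum _ fun z _ => hcont _
  have hDratio : ∀ g : Equiv.Perm (Fin d) × (Fin d → ℤˣ), ∀ u ∈ W,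
      ∑ z ∈ vts F, S2 βc (cs0_sg g u - z) / S2 βc z ≤ δ := by
    intro g u hu
    refine hR₁ _ ?_
    rw [cs0_nrm]
    exact (hWR u hu).1
  have hDval : ∀ g : Equiv.Perm (Fin d) × (Fin d → ℤˣ), ∀ u ∈ W,
      ∑ z ∈ vts F, S2 βc (cs0_sg g u - z) ≤ δ := by
    intro g u hu
    refine le_trans (Finset.sum_le_sum fun z _ => ?_) (hDratio g u hu)
    rw [le_div_iff₀ (hpos z)]
    exact mul_le_of_le_one_right (hpos _).le (hAPI.le_one z)
  have hev : ∀ᶠ b in 𝓝[>] βc, ∀ g : Equiv.Perm (Fin d) × (Fin d → ℤˣ),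
      |∑ u ∈ W, w u * (lW b (EF F ∩ CN 0 (cs0_sg g u)) / S2 b (cs0_sg g u)) -
        ∑ u ∈ W, w u * (lW βc (EF F ∩ CN 0 (cs0_sg g u)) / S2 βc (cs0_sg g u))| < δ ∧
      ∑ u ∈ W, ∑ v ∈ W, w u * w v * (S2 b (cs0_sg g u - cs0_sg g v) *
        (1 / S2 b (cs0_sg g u) + 1 / S2 b (cs0_sg g v))) < 1 + 2 * δ ^ 2 ∧
      ∀ u ∈ W, ∑ z ∈ vts F, S2 b (cs0_sg g u - z) < 2 * δ := by
    rw [eventually_all]
    intro g
    refine Filter.Eventually.and ?_ (Filter.Eventually.and ?_ ?_)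
    · have h1 := (hM g).eventually (Metric.ball_mem_nhds _ hδ)
      filter_upwards [h1] with b hb
      rwa [Real.dist_eq] at hb
    · refine (hQg g).eventually (gt_mem_nhds ?_)
      refine lt_of_le_of_lt (hQval g) ?_
      nlinarith [pow_pos hδ 2]
    · rw [Filter.eventually_all_finset]
      intro u hu
      refine (hD g u).eventually (gt_mem_nhds ?_)
      exact lt_of_le_of_lt (hDval g u hu) (by linarith)
  obtain ⟨b, hb, hbs⟩ := (mem_nhdsGT_iff_exists_Ioo_subset).1 hev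
  refine ⟨2 * W.sup nrm + 1, b, hb, ?_⟩
  intro x hx β hβ1 hβ2
  have hβ0 : 0 < β := hβc.trans hβ1
  obtain ⟨g, x0, hgx, hx0, hx0j⟩ := cs0_sector i₀ x
  obtain ⟨e1, e2, e3⟩ := hbs ⟨hβ1, hβ2⟩ g
  -- the weights
  let W' : Finset (Fin d → ℤ) := W.map (cs0_sg g).toEmbedding
  let w' : (Fin d → ℤ) → ℝ := fun u => w ((cs0_sg g).symm u)
  have hsum : ∀ f : (Fin d → ℤ) → ℝ, ∑ u ∈ W', f u = ∑ u ∈ W, f (cs0_sg g u) := by
    intro f
    exact Finset.sum_map _ _ _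
  have hw' : ∀ u, w' (cs0_sg g u) = w u := by
    intro u
    show w ((cs0_sg g).symm (cs0_sg g u)) = w u
    rw [Equiv.symm_apply_apply]
  have hmem : ∀ u' ∈ W', ∃ u ∈ W, cs0_sg g u = u' := by
    intro u' hu'
    obtain ⟨u, hu, hu2⟩ := Finset.mem_map.1 hu'
    exact ⟨u, hu, hu2⟩
  have hw0' : ∀ u ∈ W', 0 ≤ w' u := by
    intro u' hu'
    obtain ⟨u, hu, rfl⟩ := hmem u' hu'
    rw [hw']
    exact hw0 u hu
  have hw1' : ∑ u ∈ W', w' u = 1 := by
    rw [hsum, ← hw1]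
    exact Finset.sum_congr rfl fun u _ => hw' u
  -- comparison at infinity
  have hcI := hI d hd β hβ0 (hth β hβ1) F W' w' (2 * δ) hw0' hw1' (by
    intro u' hu'
    obtain ⟨u, hu, rfl⟩ := hmem u' hu'
    exact (e3 u hu).le)
  -- comparison at x
  have hgt : ∀ u ∈ W, S2 βc x ≤ S2 βc (x - cs0_sg g u) := by
    intro u hu
    have h1 : S2 βc x0 ≤ S2 βc (x0 - u) := by
      refine hWA5 u (hWR u hu).2 x0 hx0j ?_
      rw [← hWA6 u (hWR u hu).2, hx0]
      have h2 : nrm u ≤ W.sup nrm := Finset.le_sup hu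
      have h3 : 2 * nrm u + 1 ≤ nrm x := by omega
      exact_mod_cast h3
    have h4 : S2 βc x = S2 βc x0 := by rw [← hgx, cs0_inv hAPI]
    have h5 : S2 βc (x - cs0_sg g u) = S2 βc (x0 - u) := by
      rw [← hgx, ← cs0_sg_sub, cs0_inv hAPI]
    rw [h4, h5]
    exact h1
  have hcX := hX d hd βc hβc F x W' w' δ hw0' hw1' (by
    intro u' hu'
    obtain ⟨u, hu, rfl⟩ := hmem u' hu'
    have h1 : ∑ z ∈ vts F, S2 βc (cs0_sg g u - z) * S2 βc (x - z) ≤
        ∑ z ∈ vts F, (S2 βc (cs0_sg g u - z) / S2 βc z) * S2 βc (x - cs0_sg g u) := by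
      refine Finset.sum_le_sum fun z _ => ?_
      have h2 : S2 βc (x - z) * S2 βc z ≤ S2 βc x := by
        have := hAPI.mul_le (x - z) z
        rwa [sub_add_cancel] at this
      have h3 : S2 βc (x - z) ≤ S2 βc (x - cs0_sg g u) / S2 βc z := by
        rw [le_div_iff₀ (hpos z)]
        exact h2.trans (hgt u hu)
      calc S2 βc (cs0_sg g u - z) * S2 βc (x - z)
          ≤ S2 βc (cs0_sg g u - z) * (S2 βc (x - cs0_sg g u) / S2 βc z) :=
            mul_le_mul_of_nonneg_left h3 (hpos _).le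
        _ = _ := by ring
    refine h1.trans ?_
    rw [← Finset.sum_mul]
    exact mul_le_mul_of_nonneg_right (hDratio g u hu) (hpos _).le)
  rw [hsum] at hcI hcX
  rw [hsum] at hcI hcX
  simp only [hw', hsum] at hcI hcX
  -- bounds for the square roots
  have hs1 : Real.sqrt (∑ u ∈ W, ∑ v ∈ W, w u * w v * (S2 β (cs0_sg g u - cs0_sg g v) *
        (1 / S2 β (cs0_sg g u) + 1 / S2 β (cs0_sg g v))) - 1) ≤ 2 * δ := by
    refine Real.sqrt_le_iff.2 ⟨by linarith, ?_⟩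
    nlinarith [pow_pos hδ 2]
  have hs2 : Real.sqrt (∑ u ∈ W, ∑ v ∈ W, w u * w v * (S2 βc x * S2 βc (cs0_sg g u - cs0_sg g v) *
        (1 / (S2 βc (cs0_sg g u) * S2 βc (x - cs0_sg g v)) +
          1 / (S2 βc (cs0_sg g v) * S2 βc (x - cs0_sg g u)))) - 1) ≤ δ := by
    refine Real.sqrt_le_iff.2 ⟨hδ.le, ?_⟩
    have h1 : ∑ u ∈ W, ∑ v ∈ W, w u * w v * (S2 βc x * S2 βc (cs0_sg g u - cs0_sg g v) *
        (1 / (S2 βc (cs0_sg g u) * S2 βc (x - cs0_sg g v)) +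
          1 / (S2 βc (cs0_sg g v) * S2 βc (x - cs0_sg g u)))) ≤ 1 + δ ^ 2 := by
      refine le_trans ?_ (hQval g)
      refine Finset.sum_le_sum fun u hu => Finset.sum_le_sum fun v hv => ?_
      refine mul_le_mul_of_nonneg_left ?_ (mul_nonneg (hw0 u hu) (hw0 v hv))
      have k1 : S2 βc x * (1 / (S2 βc (cs0_sg g u) * S2 βc (x - cs0_sg g v))) ≤
          1 / S2 βc (cs0_sg g u) := by
        rw [mul_one_div, div_le_div_iff₀ (mul_pos (hpos _) (hpos _)) (hpos _)]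
        nlinarith [hgt v hv, hpos (cs0_sg g u)]
      have k2 : S2 βc x * (1 / (S2 βc (cs0_sg g v) * S2 βc (x - cs0_sg g u))) ≤
          1 / S2 βc (cs0_sg g v) := by
        rw [mul_one_div, div_le_div_iff₀ (mul_pos (hpos _) (hpos _)) (hpos _)]
        nlinarith [hgt u hu, hpos (cs0_sg g v)]
      calc S2 βc x * S2 βc (cs0_sg g u - cs0_sg g v) *
        (1 / (S2 βc (cs0_sg g u) * S2 βc (x - cs0_sg g v)) +
          1 / (S2 βc (cs0_sg g v) * S2 βc (x - cs0_sg g u)))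
          = S2 βc (cs0_sg g u - cs0_sg g v) *
            (S2 βc x * (1 / (S2 βc (cs0_sg g u) * S2 βc (x - cs0_sg g v))) +
             S2 βc x * (1 / (S2 βc (cs0_sg g v) * S2 βc (x - cs0_sg g u)))) := by ring
        _ ≤ _ := mul_le_mul_of_nonneg_left (add_le_add k1 k2) (hpos _).le
    linarith
  have f1 := hcI.trans (add_le_add_left hs1 _)
  have f2 := hcX.trans (add_le_add_left hs2 _)
  have hε' : ε = 16 * δ := by rw [hδdef]; ring
  rw [abs_le] at f1 f2 ⊢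
  rw [abs_lt] at e1
  constructor <;> linarith [f1.1, f1.2, f2.1, f2.2, e1.1, e1.2]

end IIC
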